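import Pool.Agent.P.MP_f478ee_an.Perfect

set_option autoImplicit false

namespace Pool.Agent.Results.MP_f478ee_an.FreeMinimal

/-- Every minimal action of an infinite countable group with finite decomposition complexity on a
compact metric space is a factor of a free minimal action on the Cantor space with finite
dynamical complexity. -/
theorem result :
    ∀ (Γ : Type) [Group Γ] [Countable Γ] [Infinite Γ],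
      (∃ ℓ : Γ → ℝ, (∀ g, 0 ≤ ℓ g) ∧ (∀ g, ℓ g = 0 ↔ g = 1) ∧ (∀ g, ℓ g⁻¹ = ℓ g) ∧
        (∀ g h, ℓ (g * h) ≤ ℓ g + ℓ h) ∧ (∀ R : ℝ, Set.Finite {g | ℓ g ≤ R}) ∧
        ∀ 𝒞 : Set (Set (Set Γ)),
          (∀ 𝒴 : Set (Set Γ), 𝒴.PairwiseDisjoint id →
            (∃ R : ℝ, ∀ Y ∈ 𝒴, ∀ a ∈ Y, ∀ b ∈ Y, ℓ (a⁻¹ * b) ≤ R) → 𝒴 ∈ 𝒞) →
          (∀ 𝒴 : Set (Set Γ), 𝒴.PairwiseDisjoint id →
            (∀ r : ℝ, 0 ≤ r → ∃ 𝒵₀ ∈ 𝒞, ∃ 𝒵₁ ∈ 𝒞, ∀ Y ∈ 𝒴, ∃ Y₀ Y₁ : Set Γ, Y = Y₀ ∪ Y₁ ∧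
              ∃ P₀ P₁ : Set (Set Γ), ⋃₀ P₀ = Y₀ ∧ ⋃₀ P₁ = Y₁ ∧
                (∀ A ∈ P₀, ∀ B ∈ P₀, A ≠ B → ∀ a ∈ A, ∀ b ∈ B, 2 * r < ℓ (a⁻¹ * b)) ∧
                (∀ A ∈ P₁, ∀ B ∈ P₁, A ≠ B → ∀ a ∈ A, ∀ b ∈ B, 2 * r < ℓ (a⁻¹ * b)) ∧
                (∀ A ∈ P₀, {y ∈ Y | ∃ z ∈ A, ℓ (y⁻¹ * z) < r} ∈ 𝒵₀) ∧
                (∀ A ∈ P₁, {y ∈ Y | ∃ z ∈ A, ℓ (y⁻¹ * z) < r} ∈ 𝒵₁)) → 𝒴 ∈ 𝒞) →
          ({Set.univ} : Set (Set Γ)) ∈ 𝒞) →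
      ∀ (Y : Type) [MetricSpace Y] [CompactSpace Y] [Nonempty Y] [MulAction Γ Y]
        [ContinuousConstSMul Γ Y] [MulAction.IsMinimal Γ Y],
      ∃ act : Γ → (ℕ → Bool) → (ℕ → Bool),
        (∀ g, Continuous (act g)) ∧ (∀ x, act 1 x = x) ∧
        (∀ (g h : Γ) (x : ℕ → Bool), act (g * h) x = act g (act h x)) ∧
        (∀ (g : Γ) (x : ℕ → Bool), act g x = x → g = 1) ∧
        (∀ x : ℕ → Bool, Dense (Set.range fun g : Γ => act g x)) ∧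
        (∃ p : (ℕ → Bool) → Y, Continuous p ∧ Function.Surjective p ∧
          ∀ (g : Γ) (x : ℕ → Bool), p (act g x) = g • p x) ∧
        ∀ 𝒞 : Set (Set (Γ × (ℕ → Bool))),
          (∀ H : Set (Γ × (ℕ → Bool)),
            ((∀ (g h : Γ) (x : ℕ → Bool), (g, act h x) ∈ H → (h, x) ∈ H → (g * h, x) ∈ H) ∧
              (∀ (g : Γ) (x : ℕ → Bool), (g, x) ∈ H → (g⁻¹, act g x) ∈ H)) →
            (∀ g : Γ, IsOpen {x : ℕ → Bool | (g, x) ∈ H}) →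
            Set.Finite {g : Γ | ∃ x : ℕ → Bool, (g, x) ∈ H} → H ∈ 𝒞) →
          (∀ H : Set (Γ × (ℕ → Bool)),
            ((∀ (g h : Γ) (x : ℕ → Bool), (g, act h x) ∈ H → (h, x) ∈ H → (g * h, x) ∈ H) ∧
              (∀ (g : Γ) (x : ℕ → Bool), (g, x) ∈ H → (g⁻¹, act g x) ∈ H)) →
            (∀ g : Γ, IsOpen {x : ℕ → Bool | (g, x) ∈ H}) →
            (∀ K : Set (Γ × (ℕ → Bool)), K ⊆ H →
              (∀ g : Γ, IsOpen {x : ℕ → Bool | (g, x) ∈ K}) →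
              Set.Finite {g : Γ | ∃ x : ℕ → Bool, (g, x) ∈ K} →
              ∃ U₀ U₁ : Set (ℕ → Bool), IsOpen U₀ ∧ IsOpen U₁ ∧
                {x : ℕ → Bool | ((1 : Γ), x) ∈ H} ⊆ U₀ ∪ U₁ ∧
                ⋂₀ {S : Set (Γ × (ℕ → Bool)) |
                    ((∀ (g h : Γ) (x : ℕ → Bool), (g, act h x) ∈ S → (h, x) ∈ S → (g * h, x) ∈ S) ∧
                      (∀ (g : Γ) (x : ℕ → Bool), (g, x) ∈ S → (g⁻¹, act g x) ∈ S)) ∧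
                    {k ∈ K | k.2 ∈ U₀} ⊆ S} ∈ 𝒞 ∧
                ⋂₀ {S : Set (Γ × (ℕ → Bool)) |
                    ((∀ (g h : Γ) (x : ℕ → Bool), (g, act h x) ∈ S → (h, x) ∈ S → (g * h, x) ∈ S) ∧
                      (∀ (g : Γ) (x : ℕ → Bool), (g, x) ∈ S → (g⁻¹, act g x) ∈ S)) ∧
                    {k ∈ K | k.2 ∈ U₁} ⊆ S} ∈ 𝒞) →
            H ∈ 𝒞) →
          (Set.univ : Set (Γ × (ℕ → Bool))) ∈ 𝒞 := by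
  intro Γ _ _ _ hΓ Y _ _ _ _ _ _
  obtain ⟨ℓ, h0, h1, hsymm, -, hfin, hFDC⟩ := hΓ
  have hgood : Pool.Agent.P.MP_f478ee_an.Good ({Set.univ} : Set (Set Γ)) := by
    refine hFDC {𝒴 | Pool.Agent.P.MP_f478ee_an.Good 𝒴} ?_ ?_
    · intro 𝒴 hd hb
      exact Pool.Agent.P.MP_f478ee_an.good_of_bounded ℓ hsymm hfin 𝒴 hd hb
    · intro 𝒴 hd h
      refine Pool.Agent.P.MP_f478ee_an.good_of_decomp ℓ h0 ((h1 1).2 rfl) 𝒴 hd fun r hr => ?_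
      obtain ⟨Z₀, hZ₀, Z₁, hZ₁, hZ⟩ := h r hr
      refine ⟨Z₀, hZ₀, Z₁, hZ₁, fun Y hY => ?_⟩
      obtain ⟨Y₀, Y₁, hYe, P₀, P₁, hP₀, hP₁, -, -, hA₀, hA₁⟩ := hZ Y hY
      exact ⟨Y₀, Y₁, hYe, P₀, P₁, hP₀, hP₁, hA₀, hA₁⟩
  obtain ⟨M, a1, a2, a3, hM⟩ := Pool.Agent.P.MP_f478ee_an.free_of_good_univ hgood Y
  exact ⟨M.act, M.cont, M.act_one, M.act_mul, a1, a2, a3, fun 𝒞 hc₁ hc₂ => hM 𝒞 ⟨hc₁, hc₂⟩⟩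

end Pool.Agent.Results.MP_f478ee_an.FreeMinimal
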